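import Pool.Agent.Helper78.LD8.Defs
import Pool.Agent.Helper17.LD6.GM

/-!
# Project LD8: the functionals of a stage: measurable, bounded, constant on the cells of the grid
-/

set_option autoImplicit false

namespace Pool.Agent.Helper83.LD8

open Set MeasureTheory Filter Topology
open Pool.Agent.Helper41.LD4 (NB NBg)
open Pool.Agent.Helper41.LD6 (hr Qs GQ Gr)
open Pool.Agent.Helper17.LD6 (hr_meas17 hr_abs17 hr_gr)
open Pool.Agent.Helper78.LD8

theorem Uf_meas83 (θ : ℝ) (c : ℕ → ℝ) (n : ℕ) : Measurable (Uf θ c n) := by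
  unfold Uf
  exact (measurable_id.mul_const _).add_const (c n)

section

variable {F : Pm} {K : ℕ} {ℓst a ℓ x : ℝ} {q q' : Fin (F.d + 1) → ℕ} {j j' : ℕ}

theorem G_meas (K : ℕ) (ℓst : ℝ) (hqs : q ∈ Qs F.d K) (j : ℕ) : Measurable (F.G K ℓst q j) := by
  unfold Pm.G GQ
  by_cases hj : j < 2 ^ (2 * K)
  · simp only [hj, if_true]
    exact Finset.measurable_prod _ fun i _ => (hr_meas17 (q i)).comp (Uf_meas83 _ _ _)
  · simp only [hj, if_false]
    exact measurable_const

theorem G_bdd (K : ℕ) (ℓst : ℝ) (hqs : q ∈ Qs F.d K) (j : ℕ) (x : ℝ) : |F.G K ℓst q j x| ≤ 1 := by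
  unfold Pm.G GQ
  by_cases hj : j < 2 ^ (2 * K)
  · rw [if_pos hj, Finset.abs_prod]
    exact Finset.prod_le_one (fun _ _ => abs_nonneg _) fun i _ => hr_abs17 _ _
  · rw [if_neg hj, abs_zero]
    exact zero_le_one

/-- constant integer parts give constant functionals -/
theorem G_NB (hqs : q ∈ Qs F.d K) {n r : ℕ} (h : NBg (F.U K ℓst) (n + F.d) r (2 ^ K) a ℓ) : NB (F.G K ℓst q) n r a ℓ := by
  intro j hj x hx
  unfold Pm.G GQ
  by_cases hj' : j < 2 ^ (2 * K)
  · rw [if_pos hj', if_pos hj']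
    refine Finset.prod_congr rfl fun i _ => ?_
    have hq : q i < 2 ^ K := Finset.mem_range.1 (Fintype.mem_piFinset.1 (Finset.mem_filter.1 hqs).1 i)
    have hi := i.2
    exact (hr_gr hq).grid _ _ (h (j + i) (by omega) x hx)
  · rw [if_neg hj', if_neg hj']

end

end Pool.Agent.Helper83.LD8
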