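import Pool.Agent.Helper83.LD8.GM
import Pool.Agent.Helper14.LD6.TSL0
import Pool.Agent.Helper55.LD8.FO2
import Pool.Agent.Helper80.LD8.NUM8
import Pool.Agent.Helper44.LD8.TT8

/-!
# Project LD8, block TST8: slow functionals against the test
-/

set_option autoImplicit false

namespace Pool.Agent.Helper83.LD8

open Set MeasureTheory
open Pool.Agent.Helper41.LD (av)
open Pool.Agent.Helper41.LD6 (hr Qs GQ Gr)
open Pool.Agent.Helper78.LD8
open Pool.Agent.Helper44.LD8 (Uf_cont Uf_mono Uf_sub)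
open Pool.Agent.Helper80.LD8 (num_Z num_K num_ZK num_e num_E)
open Pool.Agent.Helper14.LD6 (prod_brk)

variable {F : Pm} {K : ℕ} {ℓst a ℓ : ℝ} {q q' : Fin (F.d + 1) → ℕ} {j : ℕ}

theorem V_steps83 (hF : F.Ok) (hK : F.Big K) (j : ℕ) {i : ℕ} (hi : i ≤ F.d + 1) :
    F.V K ℓst (j + i) ≤ 2 ^ F.e K / 8 * F.V K ℓst j := by
  have h0 : 0 < F.θ := by linarith [hF.h1]
  have e1 : F.V K ℓst (j + i) = F.θ ^ i * F.V K ℓst j := by
    unfold Pm.V
    rw [← pow_add]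
    congr 1
    ring
  rw [e1]
  have hV : 0 ≤ F.V K ℓst j := by unfold Pm.V; positivity
  refine mul_le_mul_of_nonneg_right ?_ hV
  have h1 : F.θ ^ i ≤ (2 ^ F.X) ^ i := pow_le_pow_left₀ h0.le hF.hθ2 i
  have h2 : ((2 : ℝ) ^ F.X) ^ i ≤ 2 ^ (F.X * (F.d + 1)) := by
    rw [← pow_mul]
    exact pow_le_pow_right₀ (by norm_num) (Nat.mul_le_mul_left _ hi)
  have h3 : F.X * (F.d + 1) + 3 ≤ F.e K := by
    have h4 := (num_Z F).2.1
    have h5 := (num_ZK hK).1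
    unfold Pm.e
    have h6 : F.X ≤ K := by omega
    have h7 := num_K hK
    nlinarith
  have h4 : (2 : ℝ) ^ (F.X * (F.d + 1)) * 8 ≤ 2 ^ F.e K := by
    calc (2 : ℝ) ^ (F.X * (F.d + 1)) * 8 = 2 ^ (F.X * (F.d + 1) + 3) := by rw [pow_add]; norm_num
      _ ≤ 2 ^ F.e K := pow_le_pow_right₀ (by norm_num) h3
  linarith

/-- the break points of a slow functional -/
theorem slow_brk (hF : F.Ok) (hK : F.Big K) (hℓ : 0 < ℓ) {Θ : ℝ}
    (hj : F.V K ℓst j * ℓ ≤ Θ) (hj2 : j < 2 ^ (2 * K)) (hqs : q ∈ Qs F.d K) (a : ℝ) :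
    ∃ T : Finset ℝ, (T.card : ℝ) ≤ (F.d + 1) * (2 ^ K * (2 ^ F.e K / 8 * Θ) + 1) ∧
      ∀ x ∈ Icc a (a + ℓ), ∀ y ∈ Icc a (a + ℓ), x ≤ y → (∀ z ∈ T, z ∉ Ioc x y) →
        F.G K ℓst q j x = F.G K ℓst q j y := by
  have h0 : 0 < F.θ := by linarith [hF.h1]
  have hal : a ≤ a + ℓ := by linarith
  obtain ⟨T, hT1, hT2⟩ := prod_brk (d := F.d) (K := K) (q := q)
    (fun i => Finset.mem_range.mp (Fintype.mem_piFinset.mp (Finset.mem_filter.mp hqs).1 i)) hal (fun i => F.U K ℓst (j + i))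
    (fun i => (Uf_cont _ _ _).continuousOn) (fun i x hx y hy hxy => Uf_mono h0.le _ _ hxy)
    (D := 2 ^ F.e K / 8 * Θ) (by
      intro i
      have e1 : F.U K ℓst (j + i) (a + ℓ) - F.U K ℓst (j + i) a = F.V K ℓst (j + i) * ℓ := by
        have := Uf_sub F.θ F.c (F.n₀ K ℓst + (j + i)) a (a + ℓ)
        rw [add_sub_cancel_left] at this
        exact this
      have e3 := V_steps83 (ℓst := ℓst) hF hK j (i := i) (by omega)
      have hE0 : (0 : ℝ) < 2 ^ F.e K := by positivity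
      calc F.U K ℓst (j + i) (a + ℓ) - F.U K ℓst (j + i) a = F.V K ℓst (j + i) * ℓ := e1
        _ ≤ (2 ^ F.e K / 8 * F.V K ℓst j) * ℓ := by gcongr
        _ = 2 ^ F.e K / 8 * (F.V K ℓst j * ℓ) := by ring
        _ ≤ 2 ^ F.e K / 8 * Θ := by gcongr)
  refine ⟨T, hT1, ?_⟩
  intro x hx y hy hxy hz
  have h := hT2 x hx y hy hxy hz
  rw [Pm.G, GQ, GQ, if_pos hj2, if_pos hj2]
  exact h

/-- numbers -/
theorem slow_num {c ℓ : ℝ} {d K e E : ℕ} (hd : d + 1 ≤ K) (h1 : 4 * K ≤ e) (h2 : 1000 * e ≤ E) (hK : 1000 ≤ K)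
    (hℓ : 0 < ℓ) (hc0 : 0 ≤ c) (hT1 : c ≤ ((d : ℝ) + 1) * (2 ^ K * (2 ^ e / 8 * 2 ^ (3 * E)) + 1)) :
    (c + 1) * (2 ^ (2 * E) * ℓ / 2 ^ (10 * E)) + (1 / 2) ^ (11 * e) * ℓ ≤ (1 / 2) ^ (10 * e) * ℓ := by
  have hT : c + 1 ≤ 2 ^ (4 * E) := by
    have hdk : (d : ℝ) + 1 ≤ 2 ^ K := by
      have h3 : d + 1 < 2 ^ K := hd.trans_lt Nat.lt_two_pow_self
      have h4 : ((d + 1 : ℕ) : ℝ) ≤ ((2 ^ K : ℕ) : ℝ) := by exact_mod_cast h3.le
      push_cast at h4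
      exact h4
    have h5 : (1 : ℝ) ≤ 2 ^ K * (2 ^ e / 8 * 2 ^ (3 * E)) := by
      have h6 : (8 : ℝ) ≤ 2 ^ e := by
        calc (8 : ℝ) = 2 ^ 3 := by norm_num
          _ ≤ 2 ^ e := pow_le_pow_right₀ (by norm_num) (by omega)
      have h7 : (1 : ℝ) ≤ 2 ^ K := one_le_pow₀ (by norm_num)
      have h8 : (1 : ℝ) ≤ 2 ^ (3 * E) := one_le_pow₀ (by norm_num)
      have h9 : (1 : ℝ) ≤ 2 ^ e / 8 := by rw [le_div_iff₀ (by norm_num)]; linarith
      exact one_le_mul_of_one_le_of_one_le h7 (one_le_mul_of_one_le_of_one_le h9 h8)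
    have h6 : c ≤ 2 ^ K * (2 * (2 ^ K * (2 ^ e / 8 * 2 ^ (3 * E)))) := by
      refine hT1.trans ?_
      gcongr
      linarith
    have h7 : (2 : ℝ) ^ K * (2 * (2 ^ K * (2 ^ e / 8 * 2 ^ (3 * E)))) =
        2 ^ (2 * K + e + 3 * E) / 4 := by
      rw [show 2 * K + e + 3 * E = K + K + e + 3 * E by ring, pow_add, pow_add, pow_add]
      ring
    rw [h7] at h6
    have h8 : (2 : ℝ) ^ (2 * K + e + 3 * E) ≤ 2 ^ (4 * E) :=
      pow_le_pow_right₀ (by norm_num) (by omega)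
    have h9 : (4 : ℝ) ≤ 2 ^ (4 * E) := by
      calc (4 : ℝ) = 2 ^ 2 := by norm_num
        _ ≤ 2 ^ (4 * E) := pow_le_pow_right₀ (by norm_num) (by omega)
    linarith
  have hx : (2 : ℝ) ^ (2 * E) * ℓ / 2 ^ (10 * E) = ℓ / 2 ^ (8 * E) := by
    rw [show 10 * E = 2 * E + 8 * E by ring, pow_add]
    field_simp
  rw [hx]
  have h7 : (c + 1) * (ℓ / 2 ^ (8 * E)) ≤ (1 / 2) ^ (11 * e) * ℓ := by
    calc (c + 1) * (ℓ / 2 ^ (8 * E)) ≤ 2 ^ (4 * E) * (ℓ / 2 ^ (8 * E)) := by gcongr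
      _ = (1 / 2) ^ (4 * E) * ℓ := by
        rw [show 8 * E = 4 * E + 4 * E by ring, pow_add, one_div, inv_pow]
        field_simp
      _ ≤ (1 / 2) ^ (11 * e) * ℓ := by
        refine mul_le_mul_of_nonneg_right ?_ hℓ.le
        exact pow_le_pow_of_le_one (by norm_num) (by norm_num) (by omega)
  have h9 : (1 / 2 : ℝ) ^ (11 * e) * ℓ + (1 / 2) ^ (11 * e) * ℓ ≤ (1 / 2) ^ (10 * e) * ℓ := by
    have h10 : (1 / 2 : ℝ) ^ (11 * e) ≤ (1 / 2) ^ (10 * e + 1) :=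
      pow_le_pow_of_le_one (by norm_num) (by norm_num) (by omega)
    rw [pow_succ] at h10
    nlinarith
  linarith

/-- slow against test -/
theorem test_slow (hF : F.Ok) (hK : F.Big K) (hN : F.NR K) (hℓ : 0 < ℓ) {t : ℕ} (ht : (2 : ℝ) ^ (10 * F.E K) ≤ F.V K ℓst t * ℓ)
    (hj : F.V K ℓst j * ℓ < F.Th K) (hqs : q ∈ Qs F.d K) (hqs' : q' ∈ Qs F.d K) :
    |av (fun x => F.G K ℓst q j x * F.G K ℓst q' t x) a ℓ| ≤ (1 / 2) ^ (10 * F.e K) := by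
  by_cases hj2 : j < 2 ^ (2 * K)
  swap
  · have h0 : (fun x => F.G K ℓst q j x * F.G K ℓst q' t x) = fun _ => 0 := by
      funext x
      rw [Pool.Agent.Helper55.LD8.G_off q hj2, zero_mul]
    rw [h0, av]
    simp
  obtain ⟨T, hT1, hT2⟩ := slow_brk (q := q) hF hK hℓ (Θ := F.Th K) hj.le hj2 hqs a
  have hal : a ≤ a + ℓ := by linarith
  have hmain := Pool.Agent.Helper76.LD6.pcs (f := F.G K ℓst q j) (g := F.G K ℓst q' t) (a := a) (b := a + ℓ)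
    (ε₁ := 2 ^ (2 * F.E K) * ℓ / 2 ^ (10 * F.E K)) (ε₂ := (1 / 2) ^ (11 * F.e K)) hal T hT2
    (G_bdd K ℓst hqs j) (G_meas K ℓst hqs j) (G_meas K ℓst hqs' t) (G_bdd K ℓst hqs' t) (by positivity) (by positivity)
    (by
      intro s u hs hsu hu
      have := Pool.Agent.Helper55.LD8.fast_one hF hK hN hℓ hsu (by positivity) ht hqs' (j := t)
      linarith)
  rw [add_sub_cancel_left] at hmain
  rw [av, abs_div, abs_of_pos hℓ, div_le_iff₀ hℓ]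
  refine hmain.trans ?_
  -- numbers
  have hE1 := (num_E hF hK).1
  have hd : F.d + 1 ≤ K := by
    have := (num_Z F).2.2.1
    have := (num_ZK hK).1
    omega
  have hE3 : 1000 * F.e K ≤ F.E K := by
    refine le_trans ?_ hE1
    have h1 := (num_Z F).1
    have : 1000 * 1 * F.e K ≤ 1000 * F.Z * F.e K :=
      Nat.mul_le_mul_right _ (Nat.mul_le_mul_left _ (by omega))
    simpa using this
  exact slow_num hd (num_e F K).1 hE3 (le_trans (by norm_num) (num_K hK)) hℓ (Nat.cast_nonneg _) hT1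

end Pool.Agent.Helper83.LD8
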